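import Pool.Agent.X209.DI.Cliff
import Pool.Agent.X256.CT.Abel
import Pool.Agent.W366.CS.Frob

/-!
# Characters of subgroups as functions on the whole group
-/

open scoped Classical BigOperators
open Pool.Agent.Helper884.IC Pool.Agent.Y63.AWC

set_option linter.unusedSectionVars false
set_option linter.unusedVariables false

noncomputable section

namespace Pool.Agent.X128.MC

variable {G : Type} [Group G] [Fintype G]

/-- `f` is an irreducible character of the subgroup `K`, extended by zero. -/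
def Ir (K : Subgroup G) (f : G → ℂ) : Prop :=
  IsIrrChar (fun x : K => f x) ∧ ∀ x, x ∉ K → f x = 0

/-- the inner product over `K` -/
def ip (K : Subgroup G) (f h : G → ℂ) : ℂ := B (fun x : K => f x) (fun x : K => h x)

/-- the conjugate function -/
def cg (g : G) (f : G → ℂ) : G → ℂ := fun x => f (g * x * g⁻¹)

/-- extension by zero -/
def ext (K : Subgroup G) (φ : K → ℂ) : G → ℂ := fun x => if h : x ∈ K then φ ⟨x, h⟩ else 0

lemma ext_coe (K : Subgroup G) (φ : K → ℂ) : (fun x : K => ext K φ x) = φ := by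
  funext x
  simp [ext]

lemma ext_not {K : Subgroup G} (φ : K → ℂ) {x : G} (h : x ∉ K) : ext K φ x = 0 := by
  simp [ext, h]

lemma ir_ext {K : Subgroup G} {φ : K → ℂ} (h : IsIrrChar φ) : Ir K (ext K φ) := by
  refine ⟨?_, fun x hx => ext_not φ hx⟩
  rw [ext_coe]
  exact h

lemma ext_res {K : Subgroup G} {f : G → ℂ} (h : ∀ x, x ∉ K → f x = 0) :
    ext K (fun x : K => f x) = f := by
  funext x
  unfold ext
  split_ifs with hx
  · rfl
  · exact (h x hx).symm

lemma cg_mul (a b : G) (f : G → ℂ) : cg (a * b) f = cg b (cg a f) := by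
  funext x
  simp only [cg]
  congr 1
  group

lemma cg_one (f : G → ℂ) : cg 1 f = f := by
  funext x
  simp [cg]

lemma cg_inv {g : G} {f h : G → ℂ} (e : cg g f = h) : f = cg g⁻¹ h := by
  rw [← e, ← cg_mul, mul_inv_cancel, cg_one]

lemma ip_comm (K : Subgroup G) (f h : G → ℂ) : ip K f h = ip K h f := B_comm _ _

lemma ip_def (K : Subgroup G) (f h : G → ℂ) :
    ip K f h = (Nat.card K : ℂ)⁻¹ * ∑ x : K, f x * h (x : G)⁻¹ := by
  unfold ip B
  rfl

lemma Ir.cl {K : Subgroup G} {f : G → ℂ} (h : Ir K f) {g : G} (hg : g ∈ K) : cg g f = f := by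
  funext x
  unfold cg
  by_cases hx : x ∈ K
  · exact h.1.isClass ⟨x, hx⟩ ⟨g, hg⟩
  · rw [h.2 x hx, h.2]
    intro h1
    apply hx
    have := K.mul_mem (K.mul_mem (K.inv_mem hg) h1) hg
    have e : g⁻¹ * (g * x * g⁻¹) * g = x := by group
    rwa [e] at this

lemma Ir.deg {K : Subgroup G} {f : G → ℂ} (h : Ir K f) : ∃ n : ℕ, 0 < n ∧ f 1 = n := by
  obtain ⟨n, h1, h2⟩ := deg_nat h.1
  exact ⟨n, h1, by simpa using h2⟩

lemma Ir.ext_iff {K : Subgroup G} {f h : G → ℂ} (hf : Ir K f) (hh : Ir K h) :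
    f = h ↔ (fun x : K => f x) = (fun x : K => h x) := by
  constructor
  · rintro rfl
    rfl
  · intro e
    rw [← ext_res hf.2, ← ext_res hh.2, e]

lemma ip_irr {K : Subgroup G} {f h : G → ℂ} (hf : Ir K f) (hh : Ir K h) :
    ip K f h = if f = h then 1 else 0 := by
  unfold ip
  rw [B_irr hf.1 hh.1]
  by_cases e : f = h
  · rw [if_pos e, if_pos ((hf.ext_iff hh).mp e)]
  · rw [if_neg e, if_neg (fun h1 => e ((hf.ext_iff hh).mpr h1))]

/-- restriction multiplicities are natural numbers -/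
lemma ip_nat {K K' : Subgroup G} (hK : K ≤ K') {χ φ : G → ℂ} (hχ : Ir K' χ) (hφ : Ir K φ) :
    ∃ n : ℕ, ip K χ φ = n := by
  have h1 : Pool.Agent.X256.CT.IsChar (fun x : K => χ x) :=
    (Pool.Agent.X256.CT.IsChar.of_irr hχ.1).comp (Subgroup.inclusion hK)
  exact h1.B_nat (Pool.Agent.X256.CT.IsChar.of_irr hφ.1)

/-- transport to `subgroupOf` -/
lemma irr_subgroupOf {K K' : Subgroup G} (hK : K ≤ K') {f : G → ℂ}
    (h : IsIrrChar (fun x : K => f x)) :
    IsIrrChar (fun m : K.subgroupOf K' => f ((m : K') : G)) :=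
  irr_comp (Subgroup.subgroupOfEquivOfLe hK) h

lemma B_subgroupOf {K K' : Subgroup G} (hK : K ≤ K') (f h : G → ℂ) :
    B (fun m : K.subgroupOf K' => f ((m : K') : G)) (fun m : K.subgroupOf K' => h ((m : K') : G)) =
      ip K f h := by
  rw [ip_def]
  unfold B
  rw [Nat.card_congr (Subgroup.subgroupOfEquivOfLe hK).toEquiv]
  congr 1
  refine Fintype.sum_equiv (Subgroup.subgroupOfEquivOfLe hK).toEquiv _ _ fun m => ?_
  rfl

lemma mult_ip {K K' : Subgroup G} (hK : K ≤ K') {χ φ : G → ℂ} (hχ : Ir K' χ) (hφ : Ir K φ) :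
    ip K χ φ = (mult (K.subgroupOf K') (fun x : K' => χ x)
      (fun m : K.subgroupOf K' => φ ((m : K') : G)) : ℂ) := by
  rw [← mult_spec (K.subgroupOf K') hχ.1 (irr_subgroupOf hK hφ.1), ← B_subgroupOf hK]
  rfl

lemma ip_cg {K : Subgroup G} {g : G} (hg : ∀ x, x ∈ K ↔ g * x * g⁻¹ ∈ K) (f h : G → ℂ) :
    ip K (cg g f) (cg g h) = ip K f h := by
  rw [ip_def, ip_def]
  congr 1
  refine Fintype.sum_bijective (fun x : K => (⟨g * x * g⁻¹, (hg x).mp x.2⟩ : K)) ?_ _ _ ?_
  · constructor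
    · intro x y hxy
      have := congrArg Subtype.val hxy
      simp only [mul_left_inj, mul_right_inj] at this
      exact Subtype.ext this
    · intro y
      refine ⟨⟨g⁻¹ * y * g, (hg _).mpr ?_⟩, ?_⟩
      · have e : g * (g⁻¹ * (y : G) * g) * g⁻¹ = y := by group
        rw [e]
        exact y.2
      · apply Subtype.ext
        simp only
        group
  · intro x
    simp only [cg]
    congr 2
    group

lemma ir_cg {K : Subgroup G} {g : G} (hg : ∀ x, x ∈ K ↔ g * x * g⁻¹ ∈ K) {f : G → ℂ} (h : Ir K f) :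
    Ir K (cg g f) := by
  constructor
  · let e : K ≃* K :=
      { toFun := fun x => ⟨g * x * g⁻¹, (hg x).mp x.2⟩
        invFun := fun y => ⟨g⁻¹ * y * g, (hg _).mpr (by
          have e : g * (g⁻¹ * (y : G) * g) * g⁻¹ = y := by group
          rw [e]
          exact y.2)⟩
        left_inv := fun x => Subtype.ext (by simp only; group)
        right_inv := fun x => Subtype.ext (by simp only; group)
        map_mul' := fun x y => Subtype.ext (by simp only [Subgroup.coe_mul]; group) }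
    exact irr_comp e h.1
  · intro x hx
    exact h.2 _ (fun h1 => hx ((hg x).mpr h1))

lemma normal_iff {K : Subgroup G} (hK : K.Normal) (g x : G) : x ∈ K ↔ g * x * g⁻¹ ∈ K := by
  constructor
  · exact fun h => hK.conj_mem x h g
  · intro h
    have := hK.conj_mem _ h g⁻¹
    have e : g⁻¹ * (g * x * g⁻¹) * g⁻¹⁻¹ = x := by group
    rwa [e] at this

/-- the expansion of a class function on `K` -/
lemma expand_on {K : Subgroup G} (f : G → ℂ) (hf : IsClass (fun x : K => f x)) {x : G} (hx : x ∈ K) :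
    f x = ∑ μ ∈ Irr K, B (fun y : K => f y) μ * μ ⟨x, hx⟩ := by
  have h1 := congrFun (expand (fun y : K => f y) hf) ⟨x, hx⟩
  simp only [Finset.sum_apply, Pi.smul_apply, smul_eq_mul] at h1
  exact h1

lemma class_res {K K' : Subgroup G} (hK : K ≤ K') {χ : G → ℂ} (hχ : Ir K' χ) :
    IsClass (fun x : K => χ x) := by
  intro x y
  exact hχ.1.isClass ⟨x, hK x.2⟩ ⟨y, hK y.2⟩

/-- there is a constituent of the restriction -/
lemma exists_constituent {K K' : Subgroup G} (hK : K ≤ K') {χ : G → ℂ} (hχ : Ir K' χ) :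
    ∃ φ, Ir K φ ∧ ip K χ φ ≠ 0 := by
  by_contra hcon
  push Not at hcon
  have h1 := expand_on χ (class_res hK hχ) (K.one_mem)
  rw [Finset.sum_eq_zero] at h1
  · obtain ⟨n, hn, h2⟩ := hχ.deg
    rw [h1] at h2
    have : n = 0 := by exact_mod_cast h2.symm
    omega
  · intro μ hμ
    have h3 := hcon (ext K μ) (ir_ext (mem_Irr.mp hμ))
    unfold ip at h3
    rw [ext_coe] at h3
    rw [h3, zero_mul]

/-- two constituents of the restriction to a normal subgroup are conjugate -/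
lemma conj_of_mult {K K' : Subgroup G} (hK : K ≤ K') [hN : (K.subgroupOf K').Normal] {χ φ φ' : G → ℂ}
    (hχ : Ir K' χ) (hφ : Ir K φ) (hφ' : Ir K φ') (h1 : ip K χ φ ≠ 0) (h2 : ip K χ φ' ≠ 0) :
    ∃ l ∈ K', φ' = cg l φ := by
  rw [mult_ip hK hχ hφ] at h1
  rw [mult_ip hK hχ hφ'] at h2
  have h3 := mem_Orb_of_mult (K.subgroupOf K') hχ.1 (irr_subgroupOf hK hφ.1)
    (irr_subgroupOf hK hφ'.1) (by exact_mod_cast h1) (by exact_mod_cast h2)
  obtain ⟨l, -, hl⟩ := Finset.mem_image.mp h3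
  refine ⟨l, l.2, ?_⟩
  have hn : ∀ x, x ∈ K ↔ (l : G) * x * (l : G)⁻¹ ∈ K := by
    intro x
    constructor
    · intro hx
      have := hN.conj_mem ⟨x, hK hx⟩ (by simpa [Subgroup.mem_subgroupOf] using hx) l
      simpa [Subgroup.mem_subgroupOf] using this
    · intro hx
      have := hN.conj_mem ⟨(l : G) * x * (l : G)⁻¹, hK hx⟩ (by simpa [Subgroup.mem_subgroupOf] using hx) l⁻¹
      simp only [Subgroup.mem_subgroupOf, Subgroup.coe_mul, Subgroup.coe_inv, inv_inv] at this
      have e : (l : G)⁻¹ * ((l : G) * x * (l : G)⁻¹) * l = x := by group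
      rwa [e] at this
  funext x
  by_cases hx : x ∈ K
  · have h4 := congrFun hl ⟨⟨x, hK hx⟩, by simpa [Subgroup.mem_subgroupOf] using hx⟩
    simp only [cj] at h4
    rw [← h4]
    rfl
  · rw [hφ'.2 x hx]
    unfold cg
    rw [hφ.2 _ (fun h => hx ((hn x).mpr h))]

/-- multiplicity one for cyclic quotients -/
lemma ip_one {K K' : Subgroup G} (hK : K ≤ K') [hN : (K.subgroupOf K').Normal] {χ φ : G → ℂ}
    (hχ : Ir K' χ) (hφ : Ir K φ) (h1 : ip K χ φ ≠ 0)
    (hcyc : ∃ g ∈ K', ∀ x ∈ K', ∃ i : ℕ, x⁻¹ * g ^ i ∈ K) : ip K χ φ = 1 := by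
  rw [mult_ip hK hχ hφ] at h1 ⊢
  obtain ⟨g, hg, h2⟩ := hcyc
  have h3 := Pool.Agent.X209.DI.mult_le_one (K.subgroupOf K') (g := ⟨g, hg⟩)
    (fun x => by
      obtain ⟨i, hi⟩ := h2 x x.2
      exact ⟨i, by simpa [Subgroup.mem_subgroupOf] using hi⟩) (irr_subgroupOf hK hφ.1) hχ.1
  have h4 : mult (K.subgroupOf K') (fun x : K' => χ x)
      (fun m : K.subgroupOf K' => φ ((m : K') : G)) ≠ 0 := by exact_mod_cast h1
  have h5 : mult (K.subgroupOf K') (fun x : K' => χ x)
      (fun m : K.subgroupOf K' => φ ((m : K') : G)) = 1 := by omega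
  rw [h5]
  norm_num

/-- the degree formula -/
lemma deg_formula {K K' : Subgroup G} (hK : K ≤ K') [hN : (K.subgroupOf K').Normal] {χ φ : G → ℂ}
    (hχ : Ir K' χ) (hφ : Ir K φ) (h1 : ip K χ φ ≠ 0) {n d : ℕ} (hn : χ 1 = n) (hd : φ 1 = d) :
    ∃ m : ℕ, ip K χ φ = m ∧ n * Nat.card (St (K.subgroupOf K')
      (fun m : K.subgroupOf K' => φ ((m : K') : G))) = Nat.card K' * m * d ∧
      n = (Orb (K.subgroupOf K') (fun m : K.subgroupOf K' => φ ((m : K') : G))).card * m * d ∧
      (Orb (K.subgroupOf K') (fun m : K.subgroupOf K' => φ ((m : K') : G))).card *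
        Nat.card (St (K.subgroupOf K') (fun m : K.subgroupOf K' => φ ((m : K') : G))) =
        Nat.card K' := by
  refine ⟨_, mult_ip hK hχ hφ, ?_⟩
  rw [mult_ip hK hχ hφ] at h1
  have h4 : mult (K.subgroupOf K') (fun x : K' => χ x)
      (fun m : K.subgroupOf K' => φ ((m : K') : G)) ≠ 0 := by exact_mod_cast h1
  have h5 := deg_eq (K.subgroupOf K') hχ.1 (irr_subgroupOf hK hφ.1) h4 (n := n) (d := d)
    (by simpa using hn) (by simpa using hd)
  have h6 := card_Orb_mul (K.subgroupOf K') (fun m : K.subgroupOf K' => φ ((m : K') : G))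
  refine ⟨?_, h5, h6⟩
  rw [h5, ← h6]
  ring

lemma mem_St' {K K' : Subgroup G} (hK : K ≤ K') [hN : (K.subgroupOf K').Normal] {φ : G → ℂ}
    (hφ : ∀ x, x ∉ K → φ x = 0) (l : K') :
    l ∈ St (K.subgroupOf K') (fun m : K.subgroupOf K' => φ ((m : K') : G)) ↔ cg (l : G) φ = φ := by
  have hn : ∀ x, x ∈ K ↔ (l : G) * x * (l : G)⁻¹ ∈ K := by
    intro x
    constructor
    · intro hx
      have := hN.conj_mem ⟨x, hK hx⟩ (by simpa [Subgroup.mem_subgroupOf] using hx) l
      simpa [Subgroup.mem_subgroupOf] using this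
    · intro hx
      have := hN.conj_mem ⟨(l : G) * x * (l : G)⁻¹, hK hx⟩ (by simpa [Subgroup.mem_subgroupOf] using hx) l⁻¹
      simp only [Subgroup.mem_subgroupOf, Subgroup.coe_mul, Subgroup.coe_inv, inv_inv] at this
      have e : (l : G)⁻¹ * ((l : G) * x * (l : G)⁻¹) * l = x := by group
      rwa [e] at this
  rw [mem_St]
  constructor
  · intro h
    funext x
    by_cases hx : x ∈ K
    · have h4 := congrFun h ⟨⟨x, hK hx⟩, by simpa [Subgroup.mem_subgroupOf] using hx⟩
      exact h4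
    · rw [hφ x hx]
      unfold cg
      rw [hφ _ (fun h => hx ((hn x).mpr h))]
  · intro h
    funext m
    exact congrFun h ((m : K') : G)

/-- the induced function -/
def indf (K K' : Subgroup G) (lam : G → ℂ) (x : G) : ℂ :=
  (Nat.card K : ℂ)⁻¹ * ∑ y : K', lam ((y : G)⁻¹ * x * y)

lemma sum_on {K K' : Subgroup G} (hK : K ≤ K') (F : G → ℂ) (hF : ∀ x, x ∉ K → F x = 0) :
    ∑ x : K', F x = ∑ x : K, F x := by
  have h : ∀ (J : Subgroup G), ∑ x : J, F x = ∑ x : G, if x ∈ J then F x else 0 := by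
    intro J
    rw [← Finset.sum_filter, ← Finset.sum_subtype (Finset.univ.filter (· ∈ J)) (by simp) F]
  rw [h, h]
  refine Finset.sum_congr rfl fun x _ => ?_
  by_cases h1 : x ∈ K
  · rw [if_pos h1, if_pos (hK h1)]
  · rw [if_neg h1]
    split_ifs
    · exact hF x h1
    · rfl

/-- Frobenius reciprocity -/
lemma ip_ind {K K' : Subgroup G} (hK : K ≤ K') {lam : G → ℂ} (hl : ∀ x, x ∉ K → lam x = 0)
    {θ : G → ℂ} (hθ : ∀ y ∈ K', cg y θ = θ) : ip K' (indf K K' lam) θ = ip K lam θ := by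
  rw [ip_def, ip_def]
  unfold indf
  have h1 : ∑ x : K', (Nat.card K : ℂ)⁻¹ * (∑ y : K', lam ((y : G)⁻¹ * x * y)) * θ (x : G)⁻¹ =
      (Nat.card K : ℂ)⁻¹ * ∑ y : K', ∑ x : K', lam ((y : G)⁻¹ * x * y) * θ (x : G)⁻¹ := by
    rw [Finset.sum_comm, Finset.mul_sum]
    refine Finset.sum_congr rfl fun x _ => ?_
    rw [mul_assoc, Finset.sum_mul]
  have h2 : ∀ y : K', ∑ x : K', lam ((y : G)⁻¹ * x * y) * θ (x : G)⁻¹ =
      ∑ x : K, lam x * θ (x : G)⁻¹ := by
    intro y
    rw [← sum_on hK (fun x => lam x * θ x⁻¹) (fun x hx => by rw [hl x hx, zero_mul])]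
    refine Fintype.sum_equiv (MulAut.conj y⁻¹).toEquiv _ _ fun x => ?_
    have e1 : (((MulAut.conj y⁻¹).toEquiv x : K') : G) = (y : G)⁻¹ * x * y := by simp
    rw [e1]
    congr 1
    have h3 := congrFun (hθ y y.2) (((y : G)⁻¹ * x * y)⁻¹)
    rw [← h3]
    unfold cg
    congr 1
    group
  rw [h1, Finset.sum_congr rfl fun y _ => h2 y, Finset.sum_const, Finset.card_univ, nsmul_eq_mul,
    ← Nat.card_eq_fintype_card]
  have h3 : (Nat.card K' : ℂ) ≠ 0 := cardG_ne
  field_simp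

lemma indf_one {K K' : Subgroup G} {lam : G → ℂ} (h : lam 1 = 1) :
    indf K K' lam 1 * (Nat.card K : ℂ) = (Nat.card K' : ℂ) := by
  unfold indf
  have h1 : ∀ y : K', lam ((y : G)⁻¹ * 1 * y) = 1 := by
    intro y
    rw [mul_one, inv_mul_cancel, h]
  rw [Finset.sum_congr rfl fun y _ => h1 y, Finset.sum_const, Finset.card_univ, nsmul_eq_mul,
    ← Nat.card_eq_fintype_card, mul_one]
  have h3 : (Nat.card K : ℂ) ≠ 0 := cardG_ne
  field_simp

lemma indf_cg {K K' : Subgroup G} {lam : G → ℂ} {h : G} (hK' : ∀ x, x ∈ K' ↔ h * x * h⁻¹ ∈ K')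
    (hl : cg h lam = lam) : cg h (indf K K' lam) = indf K K' lam := by
  funext x
  unfold cg indf
  congr 1
  symm
  refine Fintype.sum_bijective (fun y : K' => (⟨h * y * h⁻¹, (hK' y).mp y.2⟩ : K')) ?_ _ _ ?_
  · constructor
    · intro x y hxy
      have := congrArg Subtype.val hxy
      simp only [mul_left_inj, mul_right_inj] at this
      exact Subtype.ext this
    · intro y
      refine ⟨⟨h⁻¹ * y * h, (hK' _).mpr ?_⟩, ?_⟩
      · have e : h * (h⁻¹ * (y : G) * h) * h⁻¹ = y := by group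
        rw [e]
        exact y.2
      · apply Subtype.ext
        simp only
        group
  · intro y
    have h3 := congrFun hl ((y : G)⁻¹ * x * y)
    rw [← h3]
    unfold cg
    congr 1
    simp only
    group

end Pool.Agent.X128.MC
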