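import Pool.Agent.X128.MC.A

/-!
# Invariant polarisations: the induction step
-/

open scoped Classical BigOperators
open Pool.Agent.Helper884.IC Pool.Agent.Y63.AWC

set_option linter.unusedSectionVars false
set_option linter.unusedVariables false

noncomputable section

namespace Pool.Agent.X128.MC

variable {G : Type} [Group G] [Fintype G]

/-- `θ` is induced from a linear character `lam` of `H ⊓ L`, invariant in `H`, where `H L` is the
stabiliser of `θ`. -/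
def Cl (L : Subgroup G) (θ : G → ℂ) : Prop :=
  ∃ (H : Subgroup G) (lam : G → ℂ),
    (∀ x ∈ H ⊓ L, ∀ y ∈ H ⊓ L, lam (x * y) = lam x * lam y) ∧ lam 1 = 1 ∧
    (∀ x, x ∉ H ⊓ L → lam x = 0) ∧ (∀ h ∈ H, cg h lam = lam) ∧
    (∀ g, cg g θ = θ ↔ ∃ h ∈ H, ∃ l ∈ L, g = h * l) ∧ θ = indf (H ⊓ L) L lam

lemma lin_mul {K : Subgroup G} {μ : G → ℂ} (h : Ir K μ) (h1 : μ 1 = 1) :
    ∀ x ∈ K, ∀ y ∈ K, μ (x * y) = μ x * μ y := by
  obtain ⟨⟨V, _, _, _, rho, hr, he⟩, hz⟩ := h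
  have hfr : Module.finrank ℂ V = 1 := by
    have h2 := congrFun he 1
    rw [rho.char_one] at h2
    simp only [OneMemClass.coe_one] at h2
    rw [h1] at h2
    exact_mod_cast h2.symm
  have hcomm : ∀ x y : K, rho x * rho y = rho y * rho x := by
    intro x y
    have hs : ∀ T : Module.End ℂ V, ∃ c : ℂ, ∀ v, T v = c • v := by
      intro T
      obtain ⟨v0, hv0, hv⟩ := finrank_eq_one_iff'.mp hfr
      obtain ⟨c, hc⟩ := hv (T v0)
      refine ⟨c, fun v => ?_⟩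
      obtain ⟨a, rfl⟩ := hv v
      rw [map_smul, ← hc, smul_comm]
    obtain ⟨a, ha⟩ := hs (rho x)
    obtain ⟨b, hb⟩ := hs (rho y)
    ext v
    rw [Module.End.mul_apply, Module.End.mul_apply, ha, hb, hb, ha, smul_comm]
  have h3 := (Pool.Agent.X256.CT.comm_irr rho hr hcomm).2
  intro x hx y hy
  have h4 := h3 ⟨x, hx⟩ ⟨y, hy⟩
  rw [← he] at h4
  exact h4

lemma lin_ir {K : Subgroup G} {lam : G → ℂ}
    (hm : ∀ x ∈ K, ∀ y ∈ K, lam (x * y) = lam x * lam y) (h1 : lam 1 = 1)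
    (hz : ∀ x, x ∉ K → lam x = 0) : Ir K lam := by
  refine ⟨?_, hz⟩
  exact Pool.Agent.X256.CT.isIrrChar_hom (G := K)
    (Pool.Agent.X256.CT.toHom (fun x : K => lam x) h1 (fun x y => hm x x.2 y y.2))

lemma sum_one {ι : Type} (s : Finset ι) (f : ι → ℕ) (h : ∑ i ∈ s, f i = 1) :
    ∃ i ∈ s, f i = 1 ∧ ∀ j ∈ s, f j ≠ 0 → j = i := by
  have h1 : ∃ i ∈ s, f i ≠ 0 := by
    by_contra hcon
    push Not at hcon
    rw [Finset.sum_eq_zero hcon] at h
    omega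
  obtain ⟨i, hi, h2⟩ := h1
  have h3 := Finset.add_sum_erase s f hi
  rw [h] at h3
  refine ⟨i, hi, by omega, fun j hj h4 => ?_⟩
  by_contra hne
  have h5 : f j ≤ ∑ x ∈ s.erase i, f x :=
    Finset.single_le_sum (fun _ _ => Nat.zero_le _) (Finset.mem_erase.mpr ⟨hne, hj⟩)
  omega

lemma card_sup (J N : Subgroup G) [hN : N.Normal] :
    Nat.card ↥(J ⊔ N) * Nat.card ↥(J ⊓ N) = Nat.card J * Nat.card N := by
  have h1 := Subgroup.relIndex_mul_relIndex ⊥ N (J ⊔ N) bot_le le_sup_right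
  rw [Subgroup.relIndex_bot_left, Subgroup.relIndex_bot_left, Subgroup.relIndex_sup_right] at h1
  have h2 := Subgroup.relIndex_mul_relIndex ⊥ (N ⊓ J) J bot_le inf_le_right
  rw [Subgroup.relIndex_bot_left, Subgroup.relIndex_bot_left, Subgroup.inf_relIndex_right] at h2
  rw [← h1, ← h2, inf_comm J N]
  ring

lemma unique_mid {U₁ U L : Subgroup G} (hU : U₁ ≤ U) (hUL : U ≤ L) {θ lam₁ : G → ℂ} (hθ : Ir L θ)
    (hl : Ir U₁ lam₁) (h1 : ip U₁ θ lam₁ = 1) :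
    ∃ μ, Ir U μ ∧ ip U θ μ = 1 ∧ ip U₁ μ lam₁ = 1 ∧
      ∀ μ', Ir U μ' → ip U θ μ' ≠ 0 → ip U₁ μ' lam₁ ≠ 0 → μ' = μ := by
  have hn : ∀ μ : U → ℂ, ∃ n : ℕ, μ ∈ Irr U → ip U θ (ext U μ) = n := by
    intro μ
    by_cases h : μ ∈ Irr U
    · obtain ⟨n, hn⟩ := ip_nat hUL hθ (ir_ext (mem_Irr.mp h))
      exact ⟨n, fun _ => hn⟩
    · exact ⟨0, fun h' => absurd h' h⟩
  have hm : ∀ μ : U → ℂ, ∃ n : ℕ, μ ∈ Irr U → ip U₁ (ext U μ) lam₁ = n := by
    intro μ
    by_cases h : μ ∈ Irr U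
    · obtain ⟨n, hn⟩ := ip_nat hU (ir_ext (mem_Irr.mp h)) hl
      exact ⟨n, fun _ => hn⟩
    · exact ⟨0, fun h' => absurd h' h⟩
  choose n hn using hn
  choose m hm using hm
  have key : ip U₁ θ lam₁ = ∑ μ ∈ Irr U, ((n μ * m μ : ℕ) : ℂ) := by
    have h2 : ∀ x : U₁, θ x = ∑ μ ∈ Irr U, (n μ : ℂ) * ext U μ x := by
      intro x
      rw [expand_on θ (class_res hUL hθ) (hU x.2)]
      refine Finset.sum_congr rfl fun μ hμ => ?_
      have h3 := hn μ hμ
      unfold ip at h3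
      rw [ext_coe] at h3
      rw [h3]
      congr 1
      simp [ext, hU x.2]
    rw [ip_def]
    have h3 : ∀ x : U₁, θ x * lam₁ (x : G)⁻¹ =
        ∑ μ ∈ Irr U, (n μ : ℂ) * (ext U μ x * lam₁ (x : G)⁻¹) := by
      intro x
      rw [h2, Finset.sum_mul]
      exact Finset.sum_congr rfl fun μ _ => by ring
    rw [Finset.sum_congr rfl fun x _ => h3 x, Finset.sum_comm, Finset.mul_sum]
    refine Finset.sum_congr rfl fun μ hμ => ?_
    rw [← Finset.mul_sum]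
    have h4 := hm μ hμ
    rw [ip_def] at h4
    push_cast
    rw [← h4]
    ring
  rw [h1] at key
  have key' : ∑ μ ∈ Irr U, n μ * m μ = 1 := by exact_mod_cast key.symm
  obtain ⟨μ, hμ, h5, h6⟩ := sum_one _ _ key'
  have h7 : n μ = 1 ∧ m μ = 1 :=
    ⟨Nat.dvd_one.mp ⟨m μ, h5.symm⟩, Nat.dvd_one.mp ⟨n μ, by rw [mul_comm]; exact h5.symm⟩⟩
  refine ⟨ext U μ, ir_ext (mem_Irr.mp hμ), by rw [hn μ hμ, h7.1]; norm_num,
    by rw [hm μ hμ, h7.2]; norm_num, ?_⟩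
  intro μ' hμ' h8 h9
  have h10 : (fun x : U => μ' x) ∈ Irr U := mem_Irr.mpr hμ'.1
  have h11 : ext U (fun x : U => μ' x) = μ' := ext_res hμ'.2
  have h12 := hn _ h10
  have h13 := hm _ h10
  rw [h11] at h12 h13
  rw [h12] at h8
  rw [h13] at h9
  have h14 := h6 _ h10 (Nat.mul_ne_zero (by exact_mod_cast h8) (by exact_mod_cast h9))
  rw [← h11, h14]

lemma indf_class {K K' : Subgroup G} {lam : G → ℂ} {l : G} (hl : l ∈ K') :
    cg l (indf K K' lam) = indf K K' lam := by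
  funext x
  unfold cg indf
  congr 1
  refine Fintype.sum_equiv (Equiv.mulLeft (⟨l, hl⟩ : K')⁻¹) _ _ fun y => ?_
  congr 1
  simp only [Equiv.coe_mulLeft, Subgroup.coe_mul, Subgroup.coe_inv]
  group

lemma eq_of_deg {L : Subgroup G} {F θ : G → ℂ} (hF : IsClass (fun x : L => F x))
    (hz : ∀ x, x ∉ L → F x = 0) (hnat : ∀ χ, Ir L χ → ∃ n : ℕ, ip L F χ = n) (hθ : Ir L θ)
    (h1 : ip L F θ ≠ 0) (hdeg : F 1 = θ 1) : F = θ := by
  have hn : ∀ μ : L → ℂ, ∃ n : ℕ, μ ∈ Irr L → ip L F (ext L μ) = n := by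
    intro μ
    by_cases h : μ ∈ Irr L
    · obtain ⟨n, hn⟩ := hnat _ (ir_ext (mem_Irr.mp h))
      exact ⟨n, fun _ => hn⟩
    · exact ⟨0, fun h' => absurd h' h⟩
  have hd : ∀ μ : L → ℂ, ∃ d : ℕ, μ ∈ Irr L → (0 < d ∧ μ 1 = d) := by
    intro μ
    by_cases h : μ ∈ Irr L
    · obtain ⟨d, hd⟩ := deg_nat (mem_Irr.mp h)
      exact ⟨d, fun _ => hd⟩
    · exact ⟨0, fun h' => absurd h' h⟩
  choose k hk using hn
  choose d hd using hd
  have hexp : ∀ x (hx : x ∈ L), F x = ∑ μ ∈ Irr L, (k μ : ℂ) * μ ⟨x, hx⟩ := by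
    intro x hx
    rw [expand_on F hF hx]
    refine Finset.sum_congr rfl fun μ hμ => ?_
    have h3 := hk μ hμ
    unfold ip at h3
    rw [ext_coe] at h3
    rw [h3]
  set t : L → ℂ := fun x => θ x with ht
  have htI : t ∈ Irr L := mem_Irr.mpr hθ.1
  have hext : ext L t = θ := ext_res hθ.2
  have hkt : k t ≠ 0 := by
    have := hk t htI
    rw [hext] at this
    intro h0
    rw [h0] at this
    exact h1 (by simpa using this)
  have hsum : ∑ μ ∈ Irr L, k μ * d μ = d t := by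
    have h2 := hexp 1 L.one_mem
    have h3 : t 1 = d t := (hd t htI).2
    have h4 : F 1 = t 1 := hdeg
    rw [h4, h3] at h2
    have h5 : ∑ μ ∈ Irr L, (k μ : ℂ) * μ ⟨1, L.one_mem⟩ = ∑ μ ∈ Irr L, ((k μ * d μ : ℕ) : ℂ) := by
      refine Finset.sum_congr rfl fun μ hμ => ?_
      rw [Nat.cast_mul, ← (hd μ hμ).2]
      rfl
    rw [h5] at h2
    exact_mod_cast h2.symm
  have h6 := Finset.add_sum_erase (Irr L) (fun μ => k μ * d μ) htI
  rw [hsum] at h6
  have h7 : d t ≤ k t * d t := Nat.le_mul_of_pos_left _ (Nat.pos_of_ne_zero hkt)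
  have h8 : ∑ μ ∈ (Irr L).erase t, k μ * d μ = 0 := by omega
  have h9 : k t = 1 := by
    have h10 : k t * d t = 1 * d t := by omega
    exact Nat.eq_of_mul_eq_mul_right (hd t htI).1 h10
  funext x
  by_cases hx : x ∈ L
  · rw [hexp x hx, Finset.sum_eq_single t]
    · rw [h9]
      simp [ht]
    · intro μ hμ hne
      have h11 := (Finset.sum_eq_zero_iff.mp h8) μ (Finset.mem_erase.mpr ⟨hne, hμ⟩)
      have h12 : k μ = 0 := by
        rcases Nat.mul_eq_zero.mp h11 with h | h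
        · exact h
        · have := (hd μ hμ).1
          omega
      rw [h12]
      simp
    · intro h
      exact absurd htI h
  · rw [hz x hx, hθ.2 x hx]

theorem step {L₁ L : Subgroup G} (hL₁ : L₁.Normal) (hL : L.Normal) (hle : L₁ ≤ L)
    (hcyc : ∀ K ≤ L, ∃ g ∈ K, ∀ x ∈ K, ∃ i : ℕ, x⁻¹ * g ^ i ∈ L₁)
    (ih : ∀ φ, Ir L₁ φ → Cl L₁ φ) {θ : G → ℂ} (hθ : Ir L θ) : Cl L θ := by
  obtain ⟨φ, hφ, hφ1⟩ := exists_constituent hle hθ
  obtain ⟨H₁, lam₁, hmul, hone, hzero, hinv, hstab, hform⟩ := ih φ hφ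
  have hU₁U : H₁ ⊓ L₁ ≤ H₁ ⊓ L := inf_le_inf_left _ hle
  have hUL : H₁ ⊓ L ≤ L := inf_le_right
  have i1 : (L₁.subgroupOf L).Normal := inferInstance
  have i2 : ((H₁ ⊓ L₁).subgroupOf (H₁ ⊓ L)).Normal := by
    constructor
    intro n hn g
    rw [Subgroup.mem_subgroupOf] at hn ⊢
    exact ⟨H₁.mul_mem (H₁.mul_mem g.2.1 hn.1) (H₁.inv_mem g.2.1), hL₁.conj_mem _ hn.2 _⟩
  have hlam₁ : Ir (H₁ ⊓ L₁) lam₁ := lin_ir hmul hone hzero
  have hθcl : ∀ y ∈ L, cg y θ = θ := fun y hy => hθ.cl hy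
  have e1 : ip L₁ θ φ = 1 := ip_one hle hθ hφ hφ1 (hcyc L le_rfl)
  have e2 : ip (H₁ ⊓ L₁) θ lam₁ = 1 := by
    rw [ip_comm, ← ip_ind (K' := L₁) inf_le_right hzero (fun y hy => hθcl y (hle hy)), ← hform,
      ip_comm]
    exact e1
  obtain ⟨lam, hlam, f1, f2, huniq⟩ := unique_mid hU₁U hUL hθ hlam₁ e2
  -- `lam` is linear
  have hlam1 : lam 1 = 1 := by
    obtain ⟨n, hn0, hn⟩ := hlam.deg
    obtain ⟨m, hm, h3, -⟩ := deg_formula hU₁U hlam hlam₁ (by rw [f2]; exact one_ne_zero) hn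
      (d := 1) (by simpa using hone)
    have hm1 : m = 1 := by
      rw [f2] at hm
      exact_mod_cast hm.symm
    have hst : St ((H₁ ⊓ L₁).subgroupOf (H₁ ⊓ L))
        (fun m : (H₁ ⊓ L₁).subgroupOf (H₁ ⊓ L) => lam₁ ((m : ↥(H₁ ⊓ L)) : G)) = ⊤ := by
      rw [eq_top_iff]
      intro u _
      rw [mem_St' hU₁U hzero]
      exact hinv u u.2.1
    rw [hst, hm1, Subgroup.card_top, mul_one, mul_one] at h3
    have hc : 0 < Nat.card ↥(H₁ ⊓ L) := Nat.card_pos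
    have : n = 1 := by
      have h4 : n * Nat.card ↥(H₁ ⊓ L) = 1 * Nat.card ↥(H₁ ⊓ L) := by rw [h3, one_mul]
      exact Nat.eq_of_mul_eq_mul_right hc h4
    rw [hn, this]
    norm_num
  have hmulU := lin_mul hlam hlam1
  let H : Subgroup G :=
    { carrier := {h | h ∈ H₁ ∧ cg h lam = lam}
      one_mem' := ⟨H₁.one_mem, cg_one _⟩
      mul_mem' := by
        rintro a b ⟨ha, ha'⟩ ⟨hb, hb'⟩
        exact ⟨H₁.mul_mem ha hb, by rw [cg_mul, ha', hb']⟩
      inv_mem' := by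
        rintro a ⟨ha, ha'⟩
        exact ⟨H₁.inv_mem ha, (cg_inv ha').symm⟩ }
  have hHmem : ∀ x, x ∈ H ↔ x ∈ H₁ ∧ cg x lam = lam := fun x => Iff.rfl
  have hHL : H ⊓ L = H₁ ⊓ L := by
    ext x
    rw [Subgroup.mem_inf, Subgroup.mem_inf, hHmem]
    constructor
    · rintro ⟨⟨h1, -⟩, h2⟩
      exact ⟨h1, h2⟩
    · rintro ⟨h1, h2⟩
      exact ⟨⟨h1, hlam.cl ⟨h1, h2⟩⟩, h2⟩
  -- the formula
  have hform' : indf (H₁ ⊓ L) L lam = θ := by
    apply eq_of_deg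
    · intro x y
      exact congrFun (indf_class (K := H₁ ⊓ L) (lam := lam) y.2) x
    · intro x hx
      unfold indf
      rw [Finset.sum_eq_zero, mul_zero]
      intro y _
      apply hlam.2
      intro h
      apply hx
      rw [normal_iff hL (y : G)⁻¹ x, inv_inv]
      exact h.2
    · intro χ hχ
      rw [ip_ind hUL hlam.2 (fun y hy => hχ.cl hy), ip_comm]
      exact ip_nat hUL hχ hlam
    · exact hθ
    · rw [ip_ind hUL hlam.2 hθcl, ip_comm, f1]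
      exact one_ne_zero
    · obtain ⟨n, hn0, hn⟩ := hθ.deg
      obtain ⟨d, hd0, hd⟩ := hφ.deg
      obtain ⟨m, hm, h3, -⟩ := deg_formula hle hθ hφ hφ1 hn hd
      have hm1 : m = 1 := by
        rw [e1] at hm
        exact_mod_cast hm.symm
      have hst : St (L₁.subgroupOf L) (fun m : L₁.subgroupOf L => φ ((m : L) : G)) =
          ((H₁ ⊓ L) ⊔ L₁).subgroupOf L := by
        ext l
        rw [mem_St' hle hφ.2, hstab, Subgroup.mem_subgroupOf, Subgroup.mem_sup_of_normal_right]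
        constructor
        · rintro ⟨h, hh, l₁, hl₁, e⟩
          refine ⟨h, ⟨hh, ?_⟩, l₁, hl₁, e.symm⟩
          have : h = (l : G) * l₁⁻¹ := by rw [e]; group
          rw [this]
          exact L.mul_mem l.2 (L.inv_mem (hle hl₁))
        · rintro ⟨h, hh, l₁, hl₁, e⟩
          exact ⟨h, hh.1, l₁, hl₁, e.symm⟩
      have hc1 : Nat.card (((H₁ ⊓ L) ⊔ L₁).subgroupOf L) = Nat.card ↥((H₁ ⊓ L) ⊔ L₁) :=
        Nat.card_congr (Subgroup.subgroupOfEquivOfLe (sup_le hUL hle)).toEquiv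
      have hc2 := card_sup (H₁ ⊓ L) L₁
      have hc3 : (H₁ ⊓ L) ⊓ L₁ = H₁ ⊓ L₁ := by
        rw [inf_assoc, inf_eq_right.mpr hle]
      rw [hc3] at hc2
      rw [hst, hc1, hm1, mul_one] at h3
      have hc4 : d * Nat.card ↥(H₁ ⊓ L₁) = Nat.card L₁ := by
        have := indf_one (K := H₁ ⊓ L₁) (K' := L₁) hone
        rw [← hform, hd] at this
        exact_mod_cast this
      have hc5 : n * Nat.card ↥(H₁ ⊓ L) = Nat.card L := by
        have hpos : 0 < Nat.card L₁ := Nat.card_pos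
        apply Nat.eq_of_mul_eq_mul_right hpos
        calc n * Nat.card ↥(H₁ ⊓ L) * Nat.card L₁
            = n * (Nat.card ↥(H₁ ⊓ L) * Nat.card L₁) := by ring
          _ = n * Nat.card ↥(H₁ ⊓ L ⊔ L₁) * Nat.card ↥(H₁ ⊓ L₁) := by rw [← hc2]; ring
          _ = Nat.card L * (d * Nat.card ↥(H₁ ⊓ L₁)) := by rw [h3]; ring
          _ = Nat.card L * Nat.card L₁ := by rw [hc4]
      have h6 := indf_one (K := H₁ ⊓ L) (K' := L) hlam1
      have h7 : (Nat.card ↥(H₁ ⊓ L) : ℂ) ≠ 0 := cardG_ne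
      rw [hn]
      apply mul_right_cancel₀ h7
      rw [h6, ← hc5]
      push_cast
      ring
  refine ⟨H, lam, ?_, hlam1, ?_, fun h hh => hh.2, ?_, ?_⟩
  · rw [hHL]
    exact hmulU
  · rw [hHL]
    exact hlam.2
  · intro g
    constructor
    · intro hg
      have a1 : Ir L₁ (cg g φ) := ir_cg (normal_iff hL₁ g) hφ
      have a2 : ip L₁ θ (cg g φ) ≠ 0 := by
        have := ip_cg (normal_iff hL₁ g) θ φ
        rw [hg] at this
        rw [this]
        exact hφ1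
      obtain ⟨l, hl, e⟩ := conj_of_mult hle hθ hφ a1 hφ1 a2
      have a3 : cg (g * l⁻¹) φ = φ := by
        rw [cg_mul, e, ← cg_mul, mul_inv_cancel, cg_one]
      obtain ⟨h₁, hh₁, l₁, hl₁, e'⟩ := (hstab _).mp a3
      have hl' : l₁ * l ∈ L := L.mul_mem (hle hl₁) hl
      have eg : g = h₁ * (l₁ * l) := by
        rw [← mul_assoc, ← e']
        group
      have a4 : cg h₁ θ = θ := by
        rw [eg, cg_mul] at hg
        have := cg_inv hg
        rw [this]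
        exact hθcl _ (L.inv_mem hl')
      have hnorm : ∀ x, x ∈ H₁ ⊓ L ↔ h₁ * x * h₁⁻¹ ∈ H₁ ⊓ L := by
        intro x
        rw [Subgroup.mem_inf, Subgroup.mem_inf, ← normal_iff hL h₁ x]
        constructor
        · rintro ⟨h1, h2⟩
          exact ⟨H₁.mul_mem (H₁.mul_mem hh₁ h1) (H₁.inv_mem hh₁), h2⟩
        · rintro ⟨h1, h2⟩
          refine ⟨?_, h2⟩
          have := H₁.mul_mem (H₁.mul_mem (H₁.inv_mem hh₁) h1) hh₁
          have e : h₁⁻¹ * (h₁ * x * h₁⁻¹) * h₁ = x := by group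
          rwa [e] at this
      have hnorm₁ : ∀ x, x ∈ H₁ ⊓ L₁ ↔ h₁ * x * h₁⁻¹ ∈ H₁ ⊓ L₁ := by
        intro x
        rw [Subgroup.mem_inf, Subgroup.mem_inf, ← normal_iff hL₁ h₁ x]
        constructor
        · rintro ⟨h1, h2⟩
          exact ⟨H₁.mul_mem (H₁.mul_mem hh₁ h1) (H₁.inv_mem hh₁), h2⟩
        · rintro ⟨h1, h2⟩
          refine ⟨?_, h2⟩
          have := H₁.mul_mem (H₁.mul_mem (H₁.inv_mem hh₁) h1) hh₁
          have e : h₁⁻¹ * (h₁ * x * h₁⁻¹) * h₁ = x := by group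
          rwa [e] at this
      have a5 : cg h₁ lam = lam := by
        apply huniq _ (ir_cg hnorm hlam)
        · have := ip_cg hnorm θ lam
          rw [a4, f1] at this
          rw [this]
          exact one_ne_zero
        · have := ip_cg hnorm₁ lam lam₁
          rw [hinv h₁ hh₁, f2] at this
          rw [this]
          exact one_ne_zero
      exact ⟨h₁, ⟨hh₁, a5⟩, l₁ * l, hl', eg⟩
    · rintro ⟨h, hh, l, hl, rfl⟩
      rw [cg_mul]
      have : cg h θ = θ := by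
        rw [← hform']
        exact indf_cg (normal_iff hL h) hh.2
      rw [this]
      exact hθcl l hl
  · rw [hHL]
    exact hform'.symm

end Pool.Agent.X128.MC
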