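import Pool.Agent.X128.MC.B

/-!
# Invariant linear characters of order `p`, and the induction
-/

open scoped Classical BigOperators
open Pool.Agent.Helper884.IC Pool.Agent.Y63.AWC

set_option linter.unusedSectionVars false
set_option linter.unusedVariables false

noncomputable section

namespace Pool.Agent.X128.MC

variable {G : Type} [Group G] [Fintype G]

/-- the stabiliser of a function -/
def stab (f : G → ℂ) : Subgroup G where
  carrier := {g | cg g f = f}
  one_mem' := cg_one f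
  mul_mem' := by
    intro a b ha hb
    simp only [Set.mem_ofPred_eq] at ha hb ⊢
    rw [cg_mul, ha, hb]
  inv_mem' := by
    intro a ha
    simp only [Set.mem_ofPred_eq] at ha ⊢
    exact (cg_inv ha).symm

lemma mem_stab {f : G → ℂ} {g : G} : g ∈ stab f ↔ cg g f = f := Iff.rfl

/-- the arithmetic hypothesis -/
def Hyp (N : Subgroup G) (q : ℕ) : Prop :=
  ∀ θ, Ir N θ → ∃ n : ℕ, θ 1 = n ∧ (stab θ).index * n ∣ q

lemma exists_over {L N : Subgroup G} (hL : L.Normal) (hle : L ≤ N) {ψ : G → ℂ} (hψ : Ir L ψ) :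
    ∃ θ, Ir N θ ∧ ip L θ ψ ≠ 0 := by
  have h1 := St_eq (L.subgroupOf N) (irr_subgroupOf hle hψ.1)
  have h2 : 0 < Nat.card (St (L.subgroupOf N) (fun m : L.subgroupOf N => ψ ((m : N) : G))) :=
    Nat.card_pos
  rw [h1] at h2
  have h3 : ∑ chi ∈ Irr N, mult (L.subgroupOf N) chi (fun m : L.subgroupOf N => ψ ((m : N) : G)) ^ 2 ≠ 0 := by
    intro h0
    rw [h0, mul_zero] at h2
    exact lt_irrefl _ h2
  obtain ⟨χ, hχ, h4⟩ := Finset.exists_ne_zero_of_sum_ne_zero h3
  refine ⟨ext N χ, ir_ext (mem_Irr.mp hχ), ?_⟩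
  rw [mult_ip hle (ir_ext (mem_Irr.mp hχ)) hψ, ext_coe]
  intro h5
  apply h4
  have h6 : mult (L.subgroupOf N) χ (fun m : L.subgroupOf N => ψ ((m : N) : G)) = 0 := by
    exact_mod_cast h5
  rw [h6]
  rfl

lemma below {L N : Subgroup G} (hL : L.Normal) (hN : N.Normal) (hle : L ≤ N) {q : ℕ}
    (hyp : Hyp N q) {ψ : G → ℂ} (hψ : Ir L ψ) :
    (∃ n : ℕ, ψ 1 = n ∧ n ∣ q) ∧ (stab ψ).index ∣ q * q := by
  obtain ⟨θ, hθ, h1⟩ := exists_over hL hle hψ
  obtain ⟨n, hn, hdvd⟩ := hyp θ hθ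
  obtain ⟨d, hd0, hd⟩ := hψ.deg
  obtain ⟨m, hm, -, h4, h5⟩ := deg_formula hle hθ hψ h1 hn hd
  have hnq : n ∣ q := (Dvd.intro_left _ rfl).trans hdvd
  refine ⟨⟨d, hd, (Dvd.intro_left _ h4.symm).trans hnq⟩, ?_⟩
  set O := (Orb (L.subgroupOf N) (fun m : L.subgroupOf N => ψ ((m : N) : G))).card with hO
  have hOq : O ∣ q := by
    refine Dvd.dvd.trans ?_ hnq
    rw [h4, mul_assoc]
    exact Dvd.intro _ rfl
  have hst : Nat.card (St (L.subgroupOf N) (fun m : L.subgroupOf N => ψ ((m : N) : G))) =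
      Nat.card ↥(stab ψ ⊓ N) := by
    have e : St (L.subgroupOf N) (fun m : L.subgroupOf N => ψ ((m : N) : G)) =
        (stab ψ ⊓ N).subgroupOf N := by
      ext l
      rw [mem_St' hle hψ.2, Subgroup.mem_subgroupOf, Subgroup.mem_inf, mem_stab]
      exact ⟨fun h => ⟨h, l.2⟩, fun h => h.1⟩
    rw [e]
    exact Nat.card_congr (Subgroup.subgroupOfEquivOfLe inf_le_right).toEquiv
  rw [hst] at h5
  have h6 := card_sup (stab ψ) N
  have h7 : Nat.card ↥(stab ψ ⊔ N) = Nat.card (stab ψ) * O := by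
    apply Nat.eq_of_mul_eq_mul_right (Nat.card_pos (α := ↥(stab ψ ⊓ N)))
    rw [h6, ← h5]
    ring
  have h8 : (stab ψ).index = (stab ψ ⊔ N).index * O := by
    apply Nat.eq_of_mul_eq_mul_left (Nat.card_pos (α := ↥(stab ψ)))
    rw [(stab ψ).card_mul_index, ← (stab ψ ⊔ N).card_mul_index, h7]
    ring
  rw [h8]
  apply mul_dvd_mul _ hOq
  refine Dvd.dvd.trans ?_ ((Dvd.intro _ rfl).trans hdvd)
  apply Subgroup.index_dvd_of_le
  intro g hg
  rw [mem_stab] at hg
  have a2 : ip L θ (cg g ψ) ≠ 0 := by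
    have := ip_cg (normal_iff hL g) θ ψ
    rw [hg] at this
    rw [this]
    exact h1
  obtain ⟨l, hl, e⟩ := conj_of_mult hle hθ hψ (ir_cg (normal_iff hL g) hψ) h1 a2
  have a3 : g * l⁻¹ ∈ stab ψ := by
    rw [mem_stab, cg_mul, e, ← cg_mul, mul_inv_cancel, cg_one]
  have : g = g * l⁻¹ * l := by group
  rw [this]
  exact Subgroup.mul_mem _ (Subgroup.mem_sup_left a3) (Subgroup.mem_sup_right hl)

/-- if all irreducible characters are linear then the group is commutative -/
lemma comm_of_linear {L : Type} [Group L] [Fintype L] (h : ∀ ψ ∈ Irr L, ψ 1 = 1)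
    (hm : ∀ ψ ∈ Irr L, ∀ x y, ψ (x * y) = ψ x * ψ y) (x y : L) : x * y = y * x := by
  have h1 := Pool.Agent.W366.CS.column (G := L) (x * y * x⁻¹ * y⁻¹)
  have h2 : ∀ ψ ∈ Irr L, ψ 1 * ψ (x * y * x⁻¹ * y⁻¹) = 1 := by
    intro ψ hψ
    have h3 : ∀ z, ψ z * ψ z⁻¹ = 1 := by
      intro z
      rw [← hm ψ hψ, mul_inv_cancel, h ψ hψ]
    rw [h ψ hψ, one_mul, hm ψ hψ, hm ψ hψ, hm ψ hψ]
    calc ψ x * ψ y * ψ x⁻¹ * ψ y⁻¹ = (ψ x * ψ x⁻¹) * (ψ y * ψ y⁻¹) := by ring
      _ = 1 := by rw [h3, h3, one_mul]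
  rw [Finset.sum_congr rfl h2] at h1
  have h3 : x * y * x⁻¹ * y⁻¹ = 1 := by
    by_contra hne
    rw [if_neg hne, Finset.sum_const, nsmul_eq_mul, mul_one] at h1
    have h4 : (Irr L).card = 0 := by exact_mod_cast h1
    rw [Finset.card_eq_zero] at h4
    have h5 : (fun z : L => (((1 : L →* ℂˣ) z : ℂˣ) : ℂ)) ∈ Irr L :=
      mem_Irr.mpr (Pool.Agent.X256.CT.isIrrChar_hom 1)
    rw [h4] at h5
    simp at h5
  have h4 : x * y * x⁻¹ = y := by
    rw [mul_inv_eq_one] at h3
    exact h3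
  rw [mul_inv_eq_iff_eq_mul] at h4
  exact h4

lemma dvd_card_of_orbits {Γ W : Type} [Group Γ] [MulAction Γ W] [Finite W] {p : ℕ}
    (h : ∀ w : W, p ∣ Nat.card (MulAction.orbit Γ w)) : p ∣ Nat.card W := by
  have : Fintype (Quotient (MulAction.orbitRel Γ W)) := Fintype.ofFinite _
  rw [Nat.card_congr (MulAction.selfEquivSigmaOrbits Γ W), Nat.card_sigma]
  exact Finset.dvd_sum fun ω _ => h _

/-- the function of a linear character -/
def fn {L : Subgroup G} (χ : L →* ℂˣ) : G → ℂ := ext L (fun x => ((χ x : ℂˣ) : ℂ))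

lemma fn_coe {L : Subgroup G} (χ : L →* ℂˣ) (x : L) : fn χ x = ((χ x : ℂˣ) : ℂ) :=
  congrFun (ext_coe L (fun x => ((χ x : ℂˣ) : ℂ))) x

lemma fn_ir {L : Subgroup G} (χ : L →* ℂˣ) : Ir L (fn χ) :=
  ir_ext (Pool.Agent.X256.CT.isIrrChar_hom χ)

lemma fn_inj {L : Subgroup G} {χ χ' : L →* ℂˣ} (h : fn χ = fn χ') : χ = χ' := by
  ext x
  rw [← fn_coe, ← fn_coe, h]

theorem exists_invariant {L N : Subgroup G} (hL : L.Normal) (hN : N.Normal) (hle : L ≤ N) {p a : ℕ}
    (hp : p.Prime) (hyp : Hyp N (p ^ a)) (hab : ¬ ∀ x ∈ L, ∀ y ∈ L, x * y = y * x) :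
    ∃ χ : L →* ℂˣ, χ ^ p = 1 ∧ χ ≠ 1 ∧ ∀ g, cg g (fn χ) = fn χ := by
  haveI : Fact p.Prime := ⟨hp⟩
  -- degrees
  have hdeg : ∀ ψ ∈ Irr L, ∃ n : ℕ, ψ 1 = n ∧ n ∣ p ^ a := by
    intro ψ hψ
    obtain ⟨⟨n, hn, hdvd⟩, -⟩ := below hL hN hle hyp (ir_ext (mem_Irr.mp hψ))
    refine ⟨n, ?_, hdvd⟩
    rw [← hn]
    exact (congrFun (ext_coe L ψ) 1).symm
  choose! dg hdg hdd using hdeg
  have hlin : ∀ ψ ∈ Irr L, ψ 1 = 1 → ∀ x y, ψ (x * y) = ψ x * ψ y := by
    intro ψ hψ h1 x y
    have h2 := lin_mul (ir_ext (mem_Irr.mp hψ)) (by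
      have := congrFun (ext_coe L ψ) 1
      rw [← h1]
      exact this) x x.2 y y.2
    have e : ∀ z : L, ext L ψ z = ψ z := fun z => congrFun (ext_coe L ψ) z
    have h3 := e (x * y)
    rw [Subgroup.coe_mul] at h3
    rw [← h3, h2, e, e]
  have hpdvd : ∀ ψ ∈ Irr L, ψ 1 ≠ 1 → p ∣ dg ψ := by
    intro ψ hψ h1
    obtain ⟨k, -, hk⟩ := (Nat.dvd_prime_pow hp).mp (hdd ψ hψ)
    rcases Nat.eq_zero_or_pos k with h0 | h0
    · exfalso
      apply h1
      rw [hdg ψ hψ, hk, h0]
      norm_num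
    · rw [hk]
      exact dvd_pow_self p h0.ne'
  have hnl : ∃ ψ ∈ Irr L, ψ 1 ≠ 1 := by
    by_contra hcon
    push Not at hcon
    apply hab
    intro x hx y hy
    have := comm_of_linear (L := L) hcon (fun ψ hψ => hlin ψ hψ (hcon ψ hψ)) ⟨x, hx⟩ ⟨y, hy⟩
    exact congrArg Subtype.val this
  have hpL : p ∣ Nat.card L := by
    obtain ⟨ψ, hψ, h1⟩ := hnl
    exact (hpdvd ψ hψ h1).trans (deg_dvd (mem_Irr.mp hψ) (hdg ψ hψ))
  have hsum : ∑ ψ ∈ Irr L, dg ψ ^ 2 = Nat.card L := by
    have h1 := Pool.Agent.W366.CS.column (G := L) 1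
    rw [if_pos rfl] at h1
    have h2 : ∑ ψ ∈ Irr L, ψ 1 * ψ 1 = ∑ ψ ∈ Irr L, ((dg ψ ^ 2 : ℕ) : ℂ) := by
      refine Finset.sum_congr rfl fun ψ hψ => ?_
      rw [hdg ψ hψ]
      push_cast
      ring
    rw [h2] at h1
    exact_mod_cast h1
  set S := (Irr L).filter (fun ψ => ψ 1 = 1) with hS
  have hpS : p ∣ S.card := by
    have h1 := Finset.sum_filter_add_sum_filter_not (Irr L) (fun ψ => ψ 1 = 1) (fun ψ => dg ψ ^ 2)
    have h2 : ∑ ψ ∈ (Irr L).filter (fun ψ => ψ 1 = 1), dg ψ ^ 2 = S.card := by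
      rw [Finset.card_eq_sum_ones]
      refine Finset.sum_congr rfl fun ψ hψ => ?_
      rw [Finset.mem_filter] at hψ
      have h3 := hdg ψ hψ.1
      rw [hψ.2] at h3
      have h4 : dg ψ = 1 := by exact_mod_cast h3.symm
      rw [h4]
      rfl
    have h3 : p ∣ ∑ ψ ∈ (Irr L).filter (fun ψ => ¬ ψ 1 = 1), dg ψ ^ 2 := by
      refine Finset.dvd_sum fun ψ hψ => ?_
      rw [Finset.mem_filter] at hψ
      exact (hpdvd ψ hψ.1 hψ.2).trans (dvd_pow_self _ two_ne_zero)
    rw [h2, hsum] at h1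
    exact (Nat.dvd_add_left h3).mp (h1 ▸ hpL)
  let F : (L →* ℂˣ) → {ψ // ψ ∈ S} := fun χ => ⟨fun x => ((χ x : ℂˣ) : ℂ), by
    rw [hS, Finset.mem_filter]
    exact ⟨mem_Irr.mpr (Pool.Agent.X256.CT.isIrrChar_hom χ), by simp⟩⟩
  have hF : Function.Bijective F := by
    constructor
    · intro χ χ' h
      ext x
      exact congrFun (congrArg Subtype.val h) x
    · rintro ⟨ψ, hψ⟩
      have hψ' := hψ
      rw [hS, Finset.mem_filter] at hψ'
      refine ⟨Pool.Agent.X256.CT.toHom ψ hψ'.2 (hlin ψ hψ'.1 hψ'.2), ?_⟩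
      apply Subtype.ext
      funext x
      rfl
  have hfin : Finite (L →* ℂˣ) := Finite.of_injective F hF.1
  have hcard : p ∣ Nat.card (L →* ℂˣ) := by
    rw [Nat.card_congr (Equiv.ofBijective F hF), Nat.card_eq_fintype_card, Fintype.card_coe]
    exact hpS
  obtain ⟨χ₀, hχ₀⟩ := exists_prime_orderOf_dvd_card' p hcard
  by_contra hcon
  push Not at hcon
  let W := {χ : L →* ℂˣ // χ ^ p = 1 ∧ χ ≠ 1}
  let tw : G → (L →* ℂˣ) → (L →* ℂˣ) := fun g χ =>
    χ.comp (MulAut.conjNormal g⁻¹ : MulAut L).toMonoidHom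
  have htw : ∀ g χ, fn (tw g χ) = cg g⁻¹ (fn χ) := by
    intro g χ
    funext x
    by_cases hx : x ∈ L
    · have h1 := fn_coe (tw g χ) ⟨x, hx⟩
      simp only at h1
      rw [h1]
      unfold cg
      have h2 := fn_coe χ (MulAut.conjNormal g⁻¹ (⟨x, hx⟩ : L))
      rw [MulAut.conjNormal_apply] at h2
      rw [h2]
      rfl
    · rw [(fn_ir (tw g χ)).2 x hx]
      unfold cg
      rw [(fn_ir χ).2]
      exact fun h => hx ((normal_iff hL g⁻¹ x).mpr h)
  letI act : MulAction G W :=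
    { smul := fun g w => ⟨tw g w.1, by
        refine ⟨?_, ?_⟩
        · ext x
          have := DFunLike.congr_fun w.2.1 (MulAut.conjNormal g⁻¹ x)
          simp only [MonoidHom.pow_apply, MonoidHom.one_apply] at this ⊢
          have h3 : tw g w.1 x = w.1 (MulAut.conjNormal g⁻¹ x) := rfl
          rw [h3, this]
        · intro h
          apply w.2.2
          ext x
          have h1 := DFunLike.congr_fun h (MulAut.conjNormal g x)
          have h2 : tw g w.1 (MulAut.conjNormal g x) =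
              w.1 (MulAut.conjNormal g⁻¹ (MulAut.conjNormal g x)) := rfl
          rw [h2] at h1
          rw [map_inv] at h1
          have h3 : (MulAut.conjNormal g : MulAut L)⁻¹ ((MulAut.conjNormal g : MulAut L) x) = x :=
            MulAut.inv_apply_self _ _ _
          rw [h3] at h1
          rw [h1]
          rfl⟩
      one_smul := fun w => by
        apply Subtype.ext
        apply fn_inj
        change fn (tw 1 w.1) = _
        rw [htw, inv_one, cg_one]
      mul_smul := fun g h w => by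
        apply Subtype.ext
        apply fn_inj
        change fn (tw (g * h) w.1) = fn (tw g (tw h w.1))
        rw [htw, htw, htw, mul_inv_rev, cg_mul] }
  have hfix : ∀ (g : G) (w : W), g • w = w ↔ g ∈ stab (fn w.1) := by
    intro g w
    have h1 : g • w = w ↔ fn (tw g w.1) = fn w.1 :=
      ⟨fun h => congrArg fn (congrArg Subtype.val h), fun h => Subtype.ext (fn_inj h)⟩
    rw [h1, htw]
    constructor
    · intro h
      exact ((stab (fn w.1)).inv_mem_iff).mp h
    · intro h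
      exact ((stab (fn w.1)).inv_mem h)
  have hW : p ∣ Nat.card W := by
    apply dvd_card_of_orbits (Γ := G)
    intro w
    have h1 : MulAction.stabilizer G w = stab (fn w.1) := by
      ext g
      rw [MulAction.mem_stabilizer_iff]
      exact hfix g w
    have h2 := MulAction.index_stabilizer G w
    rw [h1] at h2
    have h3 : Nat.card (MulAction.orbit G w) = (stab (fn w.1)).index := by
      rw [h2]
      rfl
    rw [h3]
    have h4 := (below hL hN hle hyp (fn_ir w.1)).2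
    rw [← pow_add] at h4
    obtain ⟨k, -, hk⟩ := (Nat.dvd_prime_pow hp).mp h4
    rcases Nat.eq_zero_or_pos k with h0 | h0
    · exfalso
      rw [h0, pow_zero, Subgroup.index_eq_one] at hk
      obtain ⟨g, hg⟩ := hcon w.1 w.2.1 w.2.2
      apply hg
      have : g ∈ stab (fn w.1) := by
        rw [hk]
        exact Subgroup.mem_top _
      exact this
    · rw [hk]
      exact dvd_pow_self p h0.ne'
  let V : Subgroup (L →* ℂˣ) := (powMonoidHom p : (L →* ℂˣ) →* (L →* ℂˣ)).ker
  have hV : p ∣ Nat.card V := by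
    have hmem : χ₀ ∈ V := by
      rw [MonoidHom.mem_ker, powMonoidHom_apply, ← hχ₀, pow_orderOf_eq_one]
    have h1 : orderOf (⟨χ₀, hmem⟩ : V) = p := by
      rw [Subgroup.orderOf_mk, hχ₀]
    rw [← h1]
    exact orderOf_dvd_natCard _
  have hVW : Nat.card V = Nat.card W + 1 := by
    have e : V ≃ Option W :=
      { toFun := fun v => if h : (v : L →* ℂˣ) = 1 then none else some ⟨v.1, by
          have := v.2
          rw [MonoidHom.mem_ker, powMonoidHom_apply] at this
          exact this, h⟩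
        invFun := fun o => match o with
          | none => 1
          | some w => ⟨w.1, by rw [MonoidHom.mem_ker, powMonoidHom_apply]; exact w.2.1⟩
        left_inv := by
          intro v
          by_cases h : (v : L →* ℂˣ) = 1
          · simp only [h, dif_pos]
            exact Subtype.ext h.symm
          · simp only [h, dif_neg, not_false_eq_true]
        right_inv := by
          intro o
          match o with
          | none => simp
          | some w =>
            have : w.1 ≠ 1 := w.2.2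
            simp only [this, dif_neg, not_false_eq_true]
            rfl }
    rw [Nat.card_congr e, Finite.card_option]
  rw [hVW] at hV
  have h1 := (Nat.dvd_add_right hW).mp hV
  exact hp.one_lt.ne' (Nat.dvd_one.mp h1)

theorem all_cl {N : Subgroup G} (hN : N.Normal) {p a : ℕ} (hp : p.Prime) (hyp : Hyp N (p ^ a)) :
    ∀ (n : ℕ) (L : Subgroup G), L.Normal → L ≤ N → Nat.card L ≤ n → ∀ θ, Ir L θ → Cl L θ := by
  intro n
  induction n with
  | zero =>
    intro L _ _ h
    have : 0 < Nat.card L := Nat.card_pos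
    omega
  | succ n ih =>
    intro L hL hle hc θ hθ
    by_cases hab : ∀ x ∈ L, ∀ y ∈ L, x * y = y * x
    · -- abelian case
      obtain ⟨lam, hlam⟩ := Pool.Agent.X256.CT.irr_of_comm (G := L)
        (fun x y => Subtype.ext (hab x x.2 y y.2)) hθ.1
      have h1 : θ 1 = 1 := by
        have := hlam 1
        simpa using this
      have hsl : stab θ ⊓ L = L := inf_eq_right.mpr (fun x hx => hθ.cl hx)
      refine ⟨stab θ, θ, ?_, h1, ?_, fun h hh => hh, ?_, ?_⟩
      · rw [hsl]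
        exact lin_mul hθ h1
      · rw [hsl]
        exact hθ.2
      · intro g
        constructor
        · intro hg
          exact ⟨g, hg, 1, L.one_mem, by rw [mul_one]⟩
        · rintro ⟨h, hh, l, hl, rfl⟩
          rw [cg_mul, mem_stab.mp hh, hθ.cl hl]
      · rw [hsl]
        funext x
        unfold indf
        have h2 : ∀ y : L, θ ((y : G)⁻¹ * x * y) = θ x := by
          intro y
          have := congrFun (hθ.cl (L.inv_mem y.2)) x
          unfold cg at this
          rw [inv_inv] at this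
          exact this
        rw [Finset.sum_congr rfl fun y _ => h2 y, Finset.sum_const, Finset.card_univ, nsmul_eq_mul,
          ← Nat.card_eq_fintype_card]
        have h3 : (Nat.card L : ℂ) ≠ 0 := cardG_ne
        field_simp
    · obtain ⟨χ, hχp, hχ1, hinv⟩ := exists_invariant hL hN hle hp hyp hab
      have hpw : ∀ x : L, ((χ x : ℂˣ) : ℂ) ^ p = 1 := by
        intro x
        have := DFunLike.congr_fun hχp x
        rw [MonoidHom.pow_apply, MonoidHom.one_apply] at this
        rw [← Units.val_pow_eq_pow_val, this, Units.val_one]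
      let L₁ : Subgroup G := χ.ker.map L.subtype
      have hmem : ∀ x, x ∈ L₁ ↔ ∃ h : x ∈ L, χ ⟨x, h⟩ = 1 := by
        intro x
        constructor
        · rintro ⟨y, hy, rfl⟩
          exact ⟨y.2, hy⟩
        · rintro ⟨h, h1⟩
          exact ⟨⟨x, h⟩, h1, rfl⟩
      have hL₁le : L₁ ≤ L := fun x hx => ((hmem x).mp hx).1
      have hL₁ : L₁.Normal := by
        constructor
        intro x hx g
        obtain ⟨h, h1⟩ := (hmem x).mp hx
        have h2 : g * x * g⁻¹ ∈ L := hL.conj_mem x h g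
        refine (hmem _).mpr ⟨h2, ?_⟩
        have h3 := congrFun (hinv g) x
        unfold cg at h3
        have h4 := fn_coe χ ⟨g * x * g⁻¹, h2⟩
        have h5 := fn_coe χ ⟨x, h⟩
        simp only at h4 h5
        apply Units.ext
        rw [← h4, h3, h5, h1]
      have hlt : Nat.card L₁ < Nat.card L := by
        have hle' : Nat.card L₁ ≤ Nat.card L := Subgroup.card_le_of_le hL₁le
        refine lt_of_le_of_ne hle' fun he => ?_
        have h1 : L₁ = L := Subgroup.eq_of_le_of_card_ge hL₁le he.ge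
        apply hχ1
        ext x
        have h2 : (x : G) ∈ L₁ := by
          rw [h1]
          exact x.2
        obtain ⟨h, h3⟩ := (hmem x).mp h2
        rw [show (⟨(x : G), h⟩ : L) = x from rfl] at h3
        rw [h3]
        rfl
      refine step hL₁ hL hL₁le ?_ (fun φ hφ => ih L₁ hL₁ (hL₁le.trans hle) (by omega) φ hφ) hθ
      intro K hK
      by_cases hall : ∀ x ∈ K, x ∈ L₁
      · exact ⟨1, K.one_mem, fun x hx => ⟨0, by simpa using L₁.inv_mem (hall x hx)⟩⟩
      · push Not at hall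
        obtain ⟨g, hg, hgL⟩ := hall
        refine ⟨g, hg, fun x hx => ?_⟩
        have hg' : ((χ ⟨g, hK hg⟩ : ℂˣ) : ℂ) ≠ 1 := by
          intro h
          apply hgL
          exact (hmem g).mpr ⟨hK hg, Units.ext h⟩
        haveI : Fact p.Prime := ⟨hp⟩
        have hord : orderOf ((χ ⟨g, hK hg⟩ : ℂˣ) : ℂ) = p := orderOf_eq_prime (hpw _) hg'
        have hprim : IsPrimitiveRoot ((χ ⟨g, hK hg⟩ : ℂˣ) : ℂ) p := by
          rw [← hord]
          exact IsPrimitiveRoot.orderOf _
        haveI : NeZero p := ⟨hp.ne_zero⟩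
        obtain ⟨i, -, hi⟩ := hprim.eq_pow_of_pow_eq_one (hpw ⟨x, hK hx⟩)
        refine ⟨i, (hmem _).mpr ⟨L.mul_mem (L.inv_mem (hK hx)) (L.pow_mem (hK hg) i), ?_⟩⟩
        have h5 : (⟨x⁻¹ * g ^ i, L.mul_mem (L.inv_mem (hK hx)) (L.pow_mem (hK hg) i)⟩ : L) =
            (⟨x, hK hx⟩ : L)⁻¹ * (⟨g, hK hg⟩ : L) ^ i := rfl
        rw [h5, map_mul, map_inv, map_pow]
        have h6 : (χ ⟨g, hK hg⟩) ^ i = χ ⟨x, hK hx⟩ := by
          apply Units.ext
          rw [Units.val_pow_eq_pow_val]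
          exact hi
        rw [h6, inv_mul_cancel]

end Pool.Agent.X128.MC
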