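import Pool.Agent.X128.MC.C

/-!
# The commutator subgroup lies in every subgroup of index `f`
-/

open scoped Classical BigOperators
open Pool.Agent.Helper884.IC Pool.Agent.Y63.AWC

set_option linter.unusedSectionVars false
set_option linter.unusedVariables false

noncomputable section

namespace Pool.Agent.X128.MC

variable {G : Type} [Group G] [Fintype G]

/-- the principal character -/
def one' (K : Type) [Group K] : K → ℂ := fun x => (((1 : K →* ℂˣ) x : ℂˣ) : ℂ)

lemma one'_apply {K : Type} [Group K] (x : K) : one' K x = 1 := by simp [one']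

lemma one'_irr {K : Type} [Group K] [Fintype K] : IsIrrChar (one' K) :=
  Pool.Agent.X256.CT.isIrrChar_hom 1

lemma psi_eq (H : Subgroup G) (x : G) : indChar H 1 x = (Nat.card H : ℂ)⁻¹ *
    (((Finset.univ : Finset G).filter fun y => y⁻¹ * x * y ∈ H).card : ℂ) := by
  unfold indChar
  congr 1
  rw [← Finset.sum_boole]
  refine Finset.sum_congr rfl fun y _ => ?_
  unfold lamExt
  split_ifs <;> simp

lemma psi_one (H : Subgroup G) : indChar H 1 1 = (H.index : ℂ) := by
  rw [psi_eq]
  have h1 : ((Finset.univ : Finset G).filter fun y => y⁻¹ * 1 * y ∈ H) = Finset.univ := by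
    ext y
    simp [H.one_mem]
  rw [h1, Finset.card_univ, ← Nat.card_eq_fintype_card, ← H.card_mul_index]
  have h2 : (Nat.card H : ℂ) ≠ 0 := cardG_ne
  push_cast
  field_simp

lemma mem_of_psi {H : Subgroup G} {x : G} (h : indChar H 1 x = indChar H 1 1) : x ∈ H := by
  rw [psi_eq, psi_eq] at h
  have h2 : (Nat.card H : ℂ)⁻¹ ≠ 0 := inv_ne_zero cardG_ne
  have h3 := mul_left_cancel₀ h2 h
  have h4 : ((Finset.univ : Finset G).filter fun y => y⁻¹ * 1 * y ∈ H) = Finset.univ := by
    ext y
    simp [H.one_mem]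
  rw [h4] at h3
  have h5 : ((Finset.univ : Finset G).filter fun y => y⁻¹ * x * y ∈ H).card =
      (Finset.univ : Finset G).card := by exact_mod_cast h3
  have h6 := (Finset.card_eq_iff_eq_univ _).mp (by rw [h5, Finset.card_univ])
  have h7 : (1 : G) ∈ ((Finset.univ : Finset G).filter fun y => y⁻¹ * x * y ∈ H) := by
    rw [h6]
    exact Finset.mem_univ _
  rw [Finset.mem_filter] at h7
  simpa using h7.2

lemma B_psi_one (H : Subgroup G) : B (indChar H 1) (one' G) = 1 := by
  rw [frob H 1 (one' G) one'_irr.isClass]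
  have h1 := sum_lamExt H 1 (fun g : G => one' G g⁻¹)
  rw [h1]
  have h2 : ∀ c : H, (((1 : H →* ℂˣ) c : ℂˣ) : ℂ) * one' G (c : G)⁻¹ = 1 := by
    intro c
    rw [one'_apply]
    simp
  rw [Finset.sum_congr rfl fun c _ => h2 c, Finset.sum_const, Finset.card_univ, nsmul_eq_mul,
    ← Nat.card_eq_fintype_card, mul_one, inv_mul_cancel₀ cardG_ne]

variable (N : Subgroup G) [hN : N.Normal]

/-- a character of `N` with hat degree one is trivial on `[N, G]` -/
lemma triv_of_hat_one {θ : N → ℂ} (hθ : IsIrrChar θ) {n : ℕ} (hn : θ 1 = n)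
    (h : (Orb N θ).card * n = 1) {x : N} (hx : (x : G) ∈ ⁅N, (⊤ : Subgroup G)⁆) : θ x = 1 := by
  have h1 : (Orb N θ).card = 1 := Nat.dvd_one.mp ⟨n, h.symm⟩
  have h2 : n = 1 := by rw [h1, one_mul] at h; exact h
  have h3 : θ 1 = 1 := by rw [hn, h2]; norm_num
  have hinv : ∀ g, cj N g θ = θ := by
    intro g
    obtain ⟨t, ht⟩ := Finset.card_eq_one.mp h1
    have a1 : cj N g θ ∈ Orb N θ := Finset.mem_image.mpr ⟨g, Finset.mem_univ _, rfl⟩
    have a2 : θ ∈ Orb N θ := Finset.mem_image.mpr ⟨1, Finset.mem_univ _, cj_one N θ⟩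
    rw [ht, Finset.mem_singleton] at a1 a2
    rw [a1, a2]
  have hm : ∀ x y : N, θ (x * y) = θ x * θ y := by
    intro x y
    have e : ∀ z : N, ext N θ z = θ z := fun z => congrFun (ext_coe N θ) z
    have h4 := lin_mul (ir_ext hθ) (by rw [← h3]; exact e 1) x x.2 y y.2
    have h5 := e (x * y)
    rw [Subgroup.coe_mul] at h5
    rw [← h5, h4, e, e]
  let χ : N →* ℂˣ := Pool.Agent.X256.CT.toHom θ h3 hm
  have hχ : ∀ x : N, ((χ x : ℂˣ) : ℂ) = θ x := fun x => rfl
  have hle : ⁅N, (⊤ : Subgroup G)⁆ ≤ χ.ker.map N.subtype := by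
    rw [Subgroup.commutator_le]
    intro n hn' g _
    have hmem : g * n⁻¹ * g⁻¹ ∈ N := hN.conj_mem _ (N.inv_mem hn') g
    refine ⟨⟨n, hn'⟩ * ⟨g * n⁻¹ * g⁻¹, hmem⟩, ?_, ?_⟩
    · rw [SetLike.mem_coe, MonoidHom.mem_ker]
      apply Units.ext
      rw [hχ, hm, Units.val_one]
      have h6 : θ ⟨g * n⁻¹ * g⁻¹, hmem⟩ = θ (⟨n, hn'⟩ : N)⁻¹ := by
        have h7 := congrFun (hinv g) (⟨n, hn'⟩ : N)⁻¹
        rw [← h7]
        unfold cj
        congr 1
      rw [h6, ← hm, mul_inv_cancel, h3]
    · simp only [Subgroup.coe_subtype, Subgroup.coe_mul]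
      rw [commutatorElement_def]
      group
  obtain ⟨y, hy, hxy⟩ := hle hx
  have : y = x := Subtype.ext hxy
  rw [← this, ← hχ]
  have h8 : χ y = 1 := hy
  rw [h8, Units.val_one]

theorem K_le_H {H : Subgroup G} {f : ℕ} (hH : H.index = f)
    (hf : ∀ θ : N → ℂ, IsIrrChar θ → ∃ n : ℕ, θ 1 = n ∧
      ((Orb N θ).card * n = 1 ∨ (Orb N θ).card * n = f)) : ⁅N, (⊤ : Subgroup G)⁆ ≤ H := by
  set Ψ : G → ℂ := indChar H 1 with hΨ
  have hcl : IsClass Ψ := isClass_indChar H 1
  have hc : ∀ χ, ∃ c : ℕ, χ ∈ Irr G → B Ψ χ = c := by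
    intro χ
    by_cases h : χ ∈ Irr G
    · obtain ⟨c, hc⟩ := Pool.Agent.Helper884.IC.mult_nat H 1 (mem_Irr.mp h)
      exact ⟨c, fun _ => hc⟩
    · exact ⟨0, fun h' => absurd h' h⟩
  choose c hc using hc
  choose! d hd hd2 using hf
  set k : (N → ℂ) → ℕ := fun θ => ∑ χ ∈ Irr G, c χ * mult N χ θ with hk
  have hexp : ∀ x : N, Ψ x = ∑ θ ∈ Irr N, (k θ : ℂ) * θ x := by
    intro x
    have h1 := congrFun (expand Ψ hcl) (x : G)
    rw [Finset.sum_apply] at h1
    rw [h1]
    have h2 : ∀ χ ∈ Irr G, (B Ψ χ • χ) (x : G) = ∑ θ ∈ Irr N, (c χ : ℂ) * (mult N χ θ : ℂ) * θ x := by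
      intro χ hχ
      have h3 := congrFun (res_eq N (mem_Irr.mp hχ)) x
      rw [Finset.sum_apply] at h3
      rw [Pi.smul_apply, smul_eq_mul, hc χ hχ]
      have h4 : χ (x : G) = res N χ x := rfl
      rw [h4, h3, Finset.mul_sum]
      refine Finset.sum_congr rfl fun θ _ => ?_
      rw [Pi.smul_apply, smul_eq_mul, mul_assoc]
    rw [Finset.sum_congr rfl h2, Finset.sum_comm]
    refine Finset.sum_congr rfl fun θ _ => ?_
    rw [← Finset.sum_mul, hk]
    push_cast
    rfl
  have hkcj : ∀ θ, IsIrrChar θ → ∀ g, k (cj N g θ) = k θ := by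
    intro θ hθ g
    simp only [hk]
    refine Finset.sum_congr rfl fun χ hχ => ?_
    rw [mult_cj N (mem_Irr.mp hχ) hθ]
  have hkone : 1 ≤ k (one' N) := by
    have h1 : one' G ∈ Irr G := mem_Irr.mpr one'_irr
    have h2 : c (one' G) = 1 := by
      have := hc _ h1
      rw [hΨ, B_psi_one] at this
      exact_mod_cast this.symm
    have h3 : mult N (one' G) (one' N) = 1 := by
      have h4 := mult_spec N (one'_irr (K := G)) (one'_irr (K := N))
      have h5 : res N (one' G) = one' N := by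
        funext x
        simp [res, one'_apply]
      rw [h5, B_irr one'_irr one'_irr, if_pos rfl] at h4
      exact_mod_cast h4.symm
    have h6 : c (one' G) * mult N (one' G) (one' N) ≤ k (one' N) := by
      simp only [hk]
      exact Finset.single_le_sum (f := fun χ => c χ * mult N χ (one' N))
        (fun _ _ => Nat.zero_le _) h1
    rw [h2, h3] at h6
    exact h6
  have hdsum : ∑ θ ∈ Irr N, k θ * d θ = f := by
    have h1 := hexp 1
    rw [Subgroup.coe_one, hΨ, psi_one, hH] at h1
    have h2 : ∑ θ ∈ Irr N, (k θ : ℂ) * θ 1 = ∑ θ ∈ Irr N, ((k θ * d θ : ℕ) : ℂ) := by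
      refine Finset.sum_congr rfl fun θ hθ => ?_
      rw [hd θ (mem_Irr.mp hθ)]
      push_cast
      rfl
    rw [h2] at h1
    exact_mod_cast h1.symm
  have hhat : ∀ θ ∈ Irr N, k θ ≠ 0 → (Orb N θ).card * d θ = 1 := by
    intro θ hθ hkθ
    by_contra hne
    have hθ' := mem_Irr.mp hθ
    have hf' : (Orb N θ).card * d θ = f := (hd2 θ hθ').resolve_left hne
    have hcj1 : ∀ g, cj N g (one' N) = one' N := by
      intro g
      funext x
      simp only [cj]
      rw [one'_apply, one'_apply]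
    have hnot : one' N ∉ Orb N θ := by
      intro h
      obtain ⟨g, -, hg⟩ := Finset.mem_image.mp h
      rw [cj_inv_iff, hcj1] at hg
      apply hne
      have h1 : (Orb N θ).card = 1 := by
        rw [hg]
        rw [Finset.card_eq_one]
        refine ⟨one' N, ?_⟩
        ext t
        rw [Finset.mem_singleton]
        constructor
        · intro ht
          obtain ⟨y, -, hy⟩ := Finset.mem_image.mp ht
          rw [← hy, hcj1]
        · rintro rfl
          exact Finset.mem_image.mpr ⟨1, Finset.mem_univ _, hcj1 1⟩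
      have h2 : d θ = 1 := by
        have h3 := hd θ hθ'
        rw [hg, one'_apply] at h3
        rw [hg]
        exact_mod_cast h3.symm
      rw [h1, h2]
    have hsub : insert (one' N) (Orb N θ) ⊆ Irr N := by
      intro t ht
      rcases Finset.mem_insert.mp ht with rfl | ht
      · exact mem_Irr.mpr one'_irr
      · exact mem_Irr.mpr (Orb_irr N hθ' ht)
    have h1 : ∑ t ∈ insert (one' N) (Orb N θ), k t * d t ≤ f := by
      rw [← hdsum]
      exact Finset.sum_le_sum_of_subset hsub
    rw [Finset.sum_insert hnot] at h1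
    have h2 : ∑ t ∈ Orb N θ, k t * d t = (Orb N θ).card * (k θ * d θ) := by
      rw [Finset.sum_congr rfl (g := fun _ => k θ * d θ), Finset.sum_const, smul_eq_mul]
      intro t ht
      obtain ⟨g, -, rfl⟩ := Finset.mem_image.mp ht
      rw [hkcj θ hθ']
      congr 1
      have h3 := hd _ (cj_irr N g hθ')
      have h4 : cj N g θ 1 = θ 1 := by simp [cj]
      rw [h4, hd θ hθ'] at h3
      exact_mod_cast h3.symm
    rw [h2] at h1
    have h5 : d (one' N) = 1 := by
      have h3 := hd (one' N) one'_irr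
      rw [one'_apply] at h3
      exact_mod_cast h3.symm
    rw [h5, mul_one] at h1
    have h6 : f ≤ (Orb N θ).card * (k θ * d θ) := by
      rw [← hf']
      exact Nat.mul_le_mul_left _ (Nat.le_mul_of_pos_left _ (Nat.pos_of_ne_zero hkθ))
    omega
  intro x hx
  have hxN : x ∈ N := Subgroup.commutator_le_left N ⊤ hx
  apply mem_of_psi
  have h1 := hexp ⟨x, hxN⟩
  have h2 := hexp 1
  simp only at h1
  rw [← hΨ, h1]
  rw [Subgroup.coe_one] at h2
  rw [h2]
  refine Finset.sum_congr rfl fun θ hθ => ?_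
  by_cases hkθ : k θ = 0
  · rw [hkθ]
    simp
  · congr 1
    have h3 := hhat θ hθ hkθ
    have h4 := hd θ (mem_Irr.mp hθ)
    rw [triv_of_hat_one N (mem_Irr.mp hθ) h4 h3 (x := ⟨x, hxN⟩) hx,
      triv_of_hat_one N (mem_Irr.mp hθ) h4 h3 (x := 1) (by
        rw [Subgroup.coe_one]
        exact Subgroup.one_mem _)]

lemma index_stab {θ : G → ℂ} (hθ : Ir N θ) :
    (stab θ).index = (Orb N (fun x : N => θ x)).card := by
  have h1 := card_Orb_mul N (fun x : N => θ x)
  have h2 : St N (fun x : N => θ x) = stab θ := by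
    ext g
    rw [mem_St, mem_stab]
    constructor
    · intro h
      funext x
      by_cases hx : x ∈ N
      · have h4 := congrFun h ⟨x, hx⟩
        exact h4
      · rw [hθ.2 x hx]
        unfold cg
        rw [hθ.2 _ (fun h => hx ((normal_iff hN g x).mpr h))]
    · intro h
      funext m
      exact congrFun h (m : G)
  rw [h2, ← (stab θ).index_mul_card] at h1
  exact (Nat.eq_of_mul_eq_mul_right Nat.card_pos h1).symm

theorem main {p a : ℕ} (hp : p.Prime)
    (hf : ∀ θ : N → ℂ, IsIrrChar θ → ∃ n : ℕ, θ 1 = n ∧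
      ((Orb N θ).card * n = 1 ∨ (Orb N θ).card * n = p ^ a)) :
    ∀ x ∈ ⁅N, (⊤ : Subgroup G)⁆, ∀ y ∈ ⁅N, (⊤ : Subgroup G)⁆, x * y = y * x := by
  have hyp : Hyp N (p ^ a) := by
    intro θ hθ
    obtain ⟨n, hn, h⟩ := hf _ hθ.1
    refine ⟨n, by simpa using hn, ?_⟩
    rw [index_stab N hθ]
    rcases h with h | h
    · rw [h]
      exact one_dvd _
    · rw [h]
  set K := ⁅N, (⊤ : Subgroup G)⁆ with hK
  haveI hKn : K.Normal := Subgroup.commutator_normal N ⊤
  have hKN : K ≤ N := Subgroup.commutator_le_left N ⊤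
  have hKK : ⁅K, K⁆ ≤ K := Subgroup.commutator_le_left K K
  haveI hKKn : (⁅K, K⁆).Normal := Subgroup.commutator_normal K K
  -- every irreducible character is trivial on the second commutator
  have key : ∀ θ : N → ℂ, IsIrrChar θ → ∀ z : N, (z : G) ∈ ⁅K, K⁆ → θ z = θ 1 := by
    intro θ hθ z hz
    obtain ⟨n, hn, h⟩ := hf θ hθ
    rcases h with h | h
    · rw [triv_of_hat_one N hθ hn h (hKK hz), triv_of_hat_one N hθ hn h (x := 1) (by
        rw [Subgroup.coe_one]
        exact Subgroup.one_mem _)]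
    · have hir := ir_ext hθ
      obtain ⟨H, lam, hmul, hone, hzero, hinv, hstab, hform⟩ :=
        all_cl hN hp hyp _ N hN le_rfl le_rfl _ hir
      have hst : stab (ext N θ) = H ⊔ N := by
        ext g
        rw [mem_stab, hstab, Subgroup.mem_sup_of_normal_right]
        constructor
        · rintro ⟨a, ha, b, hb, e⟩
          exact ⟨a, ha, b, hb, e.symm⟩
        · rintro ⟨a, ha, b, hb, e⟩
          exact ⟨a, ha, b, hb, e.symm⟩
      have hidx := index_stab N hir
      rw [hst, ext_coe] at hidx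
      rw [← hidx] at h
      have hθ1 : ext N θ 1 = n := by
        rw [← hn]
        exact congrFun (ext_coe N θ) 1
      have h1 : n * Nat.card ↥(H ⊓ N) = Nat.card N := by
        have := indf_one (K := H ⊓ N) (K' := N) hone
        rw [← hform, hθ1] at this
        exact_mod_cast this
      have h2 := card_sup H N
      have hHi : H.index = p ^ a := by
        rw [← h]
        apply Nat.eq_of_mul_eq_mul_left (Nat.card_pos (α := H))
        apply Nat.eq_of_mul_eq_mul_right (Nat.card_pos (α := ↥(H ⊓ N)))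
        calc Nat.card H * H.index * Nat.card ↥(H ⊓ N)
            = Nat.card G * Nat.card ↥(H ⊓ N) := by rw [H.card_mul_index]
          _ = Nat.card ↥(H ⊔ N) * (H ⊔ N).index * Nat.card ↥(H ⊓ N) := by
              rw [(H ⊔ N).card_mul_index]
          _ = (Nat.card ↥(H ⊔ N) * Nat.card ↥(H ⊓ N)) * (H ⊔ N).index := by ring
          _ = (Nat.card H * (n * Nat.card ↥(H ⊓ N))) * (H ⊔ N).index := by rw [h2, h1]
          _ = Nat.card H * ((H ⊔ N).index * n) * Nat.card ↥(H ⊓ N) := by ring
      have hKH : K ≤ H := K_le_H N hHi hf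
      let H₃ : Subgroup G :=
        { carrier := {z | z ∈ H ⊓ N ∧ lam z = 1}
          one_mem' := ⟨Subgroup.one_mem _, hone⟩
          mul_mem' := by
            rintro a b ⟨ha, ha'⟩ ⟨hb, hb'⟩
            exact ⟨Subgroup.mul_mem _ ha hb, by rw [hmul a ha b hb, ha', hb', one_mul]⟩
          inv_mem' := by
            rintro a ⟨ha, ha'⟩
            refine ⟨Subgroup.inv_mem _ ha, ?_⟩
            have := hmul a ha a⁻¹ (Subgroup.inv_mem _ ha)
            rw [mul_inv_cancel, hone, ha', one_mul] at this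
            exact this.symm }
      have hle : ⁅K, K⁆ ≤ H₃ := by
        rw [Subgroup.commutator_le]
        intro u hu v hv
        have hu' : u ∈ H ⊓ N := ⟨hKH hu, hKN hu⟩
        have hv' : v ∈ H ⊓ N := ⟨hKH hv, hKN hv⟩
        refine ⟨?_, ?_⟩
        · rw [commutatorElement_def]
          exact Subgroup.mul_mem _ (Subgroup.mul_mem _ (Subgroup.mul_mem _ hu' hv')
            (Subgroup.inv_mem _ hu')) (Subgroup.inv_mem _ hv')
        · have hinv' : ∀ w ∈ H ⊓ N, lam w * lam w⁻¹ = 1 := by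
            intro w hw
            rw [← hmul w hw _ (Subgroup.inv_mem _ hw), mul_inv_cancel, hone]
          rw [commutatorElement_def, hmul _ (Subgroup.mul_mem _ (Subgroup.mul_mem _ hu' hv')
            (Subgroup.inv_mem _ hu')) _ (Subgroup.inv_mem _ hv'), hmul _ (Subgroup.mul_mem _ hu' hv') _
            (Subgroup.inv_mem _ hu'), hmul _ hu' _ hv']
          calc lam u * lam v * lam u⁻¹ * lam v⁻¹ = (lam u * lam u⁻¹) * (lam v * lam v⁻¹) := by ring
            _ = 1 := by rw [hinv' u hu', hinv' v hv', one_mul]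
      have h5 : θ z = indf (H ⊓ N) N lam z := by
        rw [← hform]
        exact (congrFun (ext_coe N θ) z).symm
      have h6 : θ 1 = indf (H ⊓ N) N lam 1 := by
        rw [← hform]
        exact (congrFun (ext_coe N θ) 1).symm
      rw [h5, h6]
      unfold indf
      congr 1
      refine Finset.sum_congr rfl fun y _ => ?_
      rw [mul_one, inv_mul_cancel, hone]
      have h7 : (y : G)⁻¹ * z * y ∈ ⁅K, K⁆ := by
        have := hKKn.conj_mem _ hz (y : G)⁻¹
        rwa [inv_inv] at this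
      exact (hle h7).2
  have hall : ∀ z ∈ ⁅K, K⁆, z = 1 := by
    intro z hz
    have hzN : z ∈ N := hKN (hKK hz)
    have h1 := Pool.Agent.W366.CS.column (G := N) ⟨z, hzN⟩
    have h2 := Pool.Agent.W366.CS.column (G := N) 1
    rw [if_pos rfl] at h2
    have h3 : ∑ φ ∈ Irr N, φ 1 * φ ⟨z, hzN⟩ = ∑ φ ∈ Irr N, φ 1 * φ 1 :=
      Finset.sum_congr rfl fun φ hφ => by rw [key φ (mem_Irr.mp hφ) ⟨z, hzN⟩ hz]
    rw [h3, h2] at h1
    by_contra hne
    rw [if_neg (fun h => hne (congrArg Subtype.val h))] at h1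
    exact cardG_ne h1
  intro x hx y hy
  have h1 := hall _ (Subgroup.commutator_mem_commutator hx hy)
  exact commutatorElement_eq_one_iff_mul_comm.mp h1

end Pool.Agent.X128.MC
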